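import Pool.Agent.N949.AD.StmB

/-!
# Project AD (helper949): DIF2, iterated differences of two independent binomials (helper288)
-/

set_option autoImplicit false

namespace Pool.Agent.N288.AD

open Finset Pool.Agent.N949.AD

theorem bin (y : ℝ) (M : ℕ) : ∑ i ∈ range (M + 1), (M.choose i : ℝ) * y ^ i = (1 + y) ^ M := by
  rw [add_comm 1 y, add_pow]
  refine sum_congr rfl fun i _ => ?_
  rw [one_pow]
  ring

theorem fac (k : ℕ) {C : ℝ} (hC : 0 < C) {a b : ℕ} (h : b ≤ a) :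
    C / Real.sqrt ((a : ℝ) + 1) ^ k ≤
      C * Real.sqrt 2 ^ k / Real.sqrt (((a + b : ℕ) : ℝ) + 1) ^ k := by
  have h1 : (0 : ℝ) < (a : ℝ) + 1 := by positivity
  have h2 : (0 : ℝ) < ((a + b : ℕ) : ℝ) + 1 := by positivity
  have h3 : Real.sqrt (((a + b : ℕ) : ℝ) + 1) ≤ Real.sqrt 2 * Real.sqrt ((a : ℝ) + 1) := by
    rw [← Real.sqrt_mul (by norm_num)]
    apply Real.sqrt_le_sqrt
    have : (b : ℝ) ≤ a := by exact_mod_cast h
    push_cast
    linarith
  rw [div_le_div_iff₀ (pow_pos (Real.sqrt_pos.2 h1) k) (pow_pos (Real.sqrt_pos.2 h2) k),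
    mul_assoc, ← mul_pow]
  exact mul_le_mul_of_nonneg_left (pow_le_pow_left₀ (Real.sqrt_nonneg _) h3 k) hC.le

/-- the weighted average of quantities which are at most `B` -/
theorem avg {y : ℝ} (hy : 0 < y) (M : ℕ) (f : ℕ → ℝ) {B : ℝ} (hf : ∀ i, |f i| ≤ B) :
    |∑ i ∈ range (M + 1), ((M.choose i : ℝ) * y ^ i) * f i| ≤ B * (1 + y) ^ M := by
  refine (abs_sum_le_sum_abs _ _).trans ?_
  rw [← bin y M, mul_sum]
  refine sum_le_sum fun i _ => ?_
  rw [abs_mul, abs_of_nonneg (by positivity), mul_comm B]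
  exact mul_le_mul_of_nonneg_left (hf i) (by positivity)

theorem dif2 : S_DIF2 := by
  intro k
  obtain ⟨C, hC, h⟩ := Pool.Agent.N949.AO.dif k
  refine ⟨C * Real.sqrt 2 ^ k, by positivity, ?_⟩
  intro y hy0 hy1 N M A g hg
  have hy : 0 < y := by linarith
  rcases le_total M N with hMN | hMN
  · have e : bb y N M (fun z => ∑ r ∈ range (k + 1), (-1 : ℝ) ^ r * (k.choose r : ℝ) *
        g (A + z.2 + 2 * r)) = ∑ i ∈ range (M + 1), ((M.choose i : ℝ) * y ^ i) *
          ∑ j ∈ range (N + 1), (N.choose j : ℝ) * y ^ j *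
            ∑ r ∈ range (k + 1), (-1 : ℝ) ^ r * (k.choose r : ℝ) *
              (fun n : ℕ => g (A - 2 * (i : ℤ) + n)) (0 + 2 * j + 2 * r) := by
      unfold bb
      rw [sum_comm]
      refine sum_congr rfl fun i _ => ?_
      rw [mul_sum]
      refine sum_congr rfl fun j _ => ?_
      rw [← mul_assoc, pow_add]
      congr 1
      · ring
      · refine sum_congr rfl fun r _ => ?_
        congr 2
        push_cast
        ring
    rw [e]
    have key : ∀ i : ℕ, |∑ j ∈ range (N + 1), (N.choose j : ℝ) * y ^ j *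
        ∑ r ∈ range (k + 1), (-1 : ℝ) ^ r * (k.choose r : ℝ) *
          (fun n : ℕ => g (A - 2 * (i : ℤ) + n)) (0 + 2 * j + 2 * r)| ≤
        C / Real.sqrt ((N : ℝ) + 1) ^ k * (1 + y) ^ N := fun i =>
      h N 0 y (fun n : ℕ => g (A - 2 * (i : ℤ) + n)) hy0 hy1 fun m => hg _
    refine (avg hy M (fun i : ℕ => ∑ j ∈ range (N + 1), (N.choose j : ℝ) * y ^ j *
        ∑ r ∈ range (k + 1), (-1 : ℝ) ^ r * (k.choose r : ℝ) *
          (fun n : ℕ => g (A - 2 * (i : ℤ) + n)) (0 + 2 * j + 2 * r)) key).trans ?_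
    rw [mul_assoc, ← pow_add]
    exact mul_le_mul_of_nonneg_right (fac k hC hMN) (by positivity)
  · have e : bb y N M (fun z => ∑ r ∈ range (k + 1), (-1 : ℝ) ^ r * (k.choose r : ℝ) *
        g (A + z.2 + 2 * r)) = ∑ j ∈ range (N + 1), ((N.choose j : ℝ) * y ^ j) *
          ((-1) ^ k * ∑ i ∈ range (M + 1), (M.choose i : ℝ) * y ^ i *
            ∑ r ∈ range (k + 1), (-1 : ℝ) ^ r * (k.choose r : ℝ) *
              (fun n : ℕ => g (A + 2 * (j : ℤ) + 2 * k - n)) (0 + 2 * i + 2 * r)) := by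
      unfold bb
      refine sum_congr rfl fun j _ => ?_
      rw [mul_sum, mul_sum]
      refine sum_congr rfl fun i _ => ?_
      have e1 : ∑ r ∈ range (k + 1), (-1 : ℝ) ^ r * (k.choose r : ℝ) *
          g (A + 2 * ((j : ℤ) - i) + 2 * r) = (-1) ^ k *
            ∑ r ∈ range (k + 1), (-1 : ℝ) ^ r * (k.choose r : ℝ) *
              g (A + 2 * (j : ℤ) + 2 * k - ((0 + 2 * i + 2 * r : ℕ) : ℤ)) := by
        rw [← sum_range_reflect, mul_sum]
        refine sum_congr rfl fun r hr => ?_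
        have hrk : r ≤ k := by
          have := mem_range.1 hr
          omega
        have e2 : k + 1 - 1 - r = k - r := by omega
        rw [e2, Nat.choose_symm hrk]
        have e3 : (-1 : ℝ) ^ (k - r) = (-1) ^ k * (-1) ^ r := by
          obtain ⟨s, rfl⟩ := Nat.exists_eq_add_of_le hrk
          rw [Nat.add_sub_cancel_left, pow_add]
          have : ((-1 : ℝ) ^ r) * (-1) ^ r = 1 := by
            rw [← mul_pow]
            norm_num
          calc (-1 : ℝ) ^ s = ((-1 : ℝ) ^ r * (-1) ^ r) * (-1) ^ s := by rw [this, one_mul]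
            _ = _ := by ring
        rw [e3]
        have e4 : A + 2 * ((j : ℤ) - i) + 2 * ((k - r : ℕ) : ℤ) =
            A + 2 * (j : ℤ) + 2 * k - ((0 + 2 * i + 2 * r : ℕ) : ℤ) := by
          push_cast [Nat.cast_sub hrk]
          ring
        rw [e4]
        ring
      simp only []
      rw [e1, pow_add]
      ring
    rw [e]
    have key : ∀ j : ℕ, |(-1 : ℝ) ^ k * ∑ i ∈ range (M + 1), (M.choose i : ℝ) * y ^ i *
        ∑ r ∈ range (k + 1), (-1 : ℝ) ^ r * (k.choose r : ℝ) *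
          (fun n : ℕ => g (A + 2 * (j : ℤ) + 2 * k - n)) (0 + 2 * i + 2 * r)| ≤
        C / Real.sqrt ((M : ℝ) + 1) ^ k * (1 + y) ^ M := fun j => by
      rw [abs_mul, abs_pow, abs_neg, abs_one, one_pow, one_mul]
      exact h M 0 y (fun n : ℕ => g (A + 2 * (j : ℤ) + 2 * k - n)) hy0 hy1 fun m => hg _
    refine (avg hy N (fun j : ℕ => (-1 : ℝ) ^ k * ∑ i ∈ range (M + 1), (M.choose i : ℝ) * y ^ i *
        ∑ r ∈ range (k + 1), (-1 : ℝ) ^ r * (k.choose r : ℝ) *
          (fun n : ℕ => g (A + 2 * (j : ℤ) + 2 * k - n)) (0 + 2 * i + 2 * r)) key).trans ?_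
    have h5 := fac k hC hMN
    rw [add_comm M N] at h5
    rw [mul_assoc, ← pow_add, add_comm M N]
    exact mul_le_mul_of_nonneg_right h5 (by positivity)

end Pool.Agent.N288.AD
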